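import Pool.Agent.W_MP_17e8f0_pr.Link4

/-!
# Cutoff for the non-backtracking walk on random graphs with `K` communities

Question Q1 of the problem file is answered in the affirmative, for every `K ≥ 2` and in the whole
regime: if `α log N → ∞`, the walk has cutoff at time `log N / μ` with window of order `w_N`.
-/

namespace Pool.Agent.Results.MP_17e8f0_pr.CommunityCutoff

open Filter Topology Pool.Agent.W_MP_17e8f0_pr

/-- For every `K ≥ 2` and every sequence in the regime with `α log N → ∞`: for every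
`ε ∈ (0,1)` the sequence `(t_mix(ε) - log N / μ) / w_N` is bounded in probability, and for some
`0 < ε < ε' < 1` and `c > 0`, `t_mix(ε) - t_mix(ε') ≥ c w_N` with probability tending to `1`. -/
theorem result {K : ℕ} (hK : 2 ≤ K) (G : ℕ → Comm K) (hG : Regime G)
    (hα : Tendsto (fun n => (G n).alpha * Real.log (G n).N) atTop atTop) :
    (∀ ε : ℝ, 0 < ε → ε < 1 → ∀ δ : ℝ, 0 < δ → ∃ C : ℝ, ∀ᶠ n in atTop,
      1 - δ ≤ (G n).prob (fun η => ∃ t : ℕ, (G n).tmix η ε = t ∧
        |(t : ℝ) - Real.log (G n).N / (G n).mu| ≤ C * (G n).w)) ∧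
    (∃ ε ε' c : ℝ, 0 < ε ∧ ε < ε' ∧ ε' < 1 ∧ 0 < c ∧
      Tendsto (fun n => (G n).prob (fun η => ∃ t t' : ℕ, (G n).tmix η ε = t ∧
        (G n).tmix η ε' = t' ∧ c * (G n).w ≤ (t : ℝ) - t')) atTop (𝓝 1)) :=
  ⟨fun _ h0 h1 _ hδ => partA (by omega) hG hα h0 h1 hδ, partB (by omega) hG hα⟩

end Pool.Agent.Results.MP_17e8f0_pr.CommunityCutoff
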